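import Pool.Agent.P.MP_233bd3_co.Final

/-!
MP_233bd3_co, Q1 is false: for every `k ≥ 1` and every `n ≥ 2k + 3` the value
`m = C(n - k - 3, k) - 1` is not the number of missing `(k+1)`-faces of any `k`-neighborly
simplicial `2k`-sphere with `n` vertices. Definitions are in `Pool/Agent/P/MP_233bd3_co/Defs.lean`.
-/

open Pool.Agent.P.MP_233bd3_co

namespace Pool.Agent.Results.MP_233bd3_co.Gap

theorem result (k : ℕ) (hk : 1 ≤ k) (n : ℕ) (hn : 2 * k + 3 ≤ n) :
    ∃ m : ℕ, m + 1 = (n - k - 3).choose k ∧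
      ∀ Δ : AbstractSimplicialComplex (Fin n),
        IsSphere Δ (2 * k) → IsNeighborly Δ k → missing Δ (k + 1) ≠ m := by
  have hpos : 0 < (n - k - 3).choose k := Nat.choose_pos (by omega)
  refine ⟨(n - k - 3).choose k - 1, by omega, fun Δ ⟨h⟩ hN hm => ?_⟩
  let K := FractionRing (MvPolynomial (ℕ × Option (Fin n)) (ZMod 2))
  obtain ⟨G⟩ := exists_gen (Option (Fin n)) K
  have e : geom (insert ∅ Δ.faces) = geom Δ.faces := by
    ext x
    refine and_congr_right fun hx => ⟨?_, fun ⟨F, hF, h⟩ => ⟨F, Or.inr hF, h⟩⟩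
    rintro ⟨F, rfl | hF, h⟩
    · have h1 := hx.2
      rw [Finset.sum_eq_zero fun v _ => by by_contra h'; simpa using h v h'] at h1
      exact absurd h1 zero_ne_one
    · exact ⟨F, hF, h⟩
  have H : HS K (insert ∅ Δ.faces) (2 * k + 1) := by
    refine hs_of_sphere (by omega) ?_ (Or.inl rfl) ((Homeomorph.setCongr e).trans h)
    rintro F (rfl | hF) T hT
    · exact Or.inl (Finset.subset_empty.1 hT)
    · rcases T.eq_empty_or_nonempty with rfl | hne
      · exact Or.inl rfl
      · exact Or.inr ((Δ.isRelLowerSet_faces hF).2 hT hne)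
  refine main_alg G hk H (fun F hF => Or.inr (hN F hF)) ?_
  rw [Fintype.card_fin, ← Nat.sub_add_cancel hpos, ← hm, missing]
  congr 2
  ext F
  refine and_congr_right fun hF => and_congr (not_congr ⟨?_, Or.inr⟩) (forall₂_congr fun T _ => ?_)
  · rintro (rfl | h)
    · simp at hF
    · exact h
  · rcases T.eq_empty_or_nonempty with rfl | hne
    · simp
    · simp [hne, hne.ne_empty]

end Pool.Agent.Results.MP_233bd3_co.Gap
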